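import Pool.Agent.L0h27.Kom.Final

/-!
# The Komlós problem: arbitrary boxes, infinitely many coordinates, and the profile

There is an absolute constant `C` with the following properties. For `0 < δ ≤ 1` let
`E δ x = min ((1 + x)^(1/4)) (1 + δ (1 + log (1/δ))^(3/2) √x)`.

(1) Let `v_1, …, v_n` be vectors in the Euclidean unit ball of `ℝ^d` with entries of absolute value
at most `δ`, and let `X_k ≥ 0` be numbers, one for each coordinate, with `∑ exp (- X_k) ≤ 1`. For
every starting point `x⁰ ∈ [-1,1]^n` there is **one** choice of signs `x` such that the vector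
`w = ∑ (x_j - x⁰_j) v_j` satisfies both
* `|w_k| ≤ C E δ (min (X_k) (log (min d n)))` for every coordinate `k`, and
* for every `Y ≥ 0` at most `(min d n) exp (- Y)` coordinates have `|w_k| > C E δ Y`.

(2) Boxes: if `b_k ≥ C` and `∑ exp (1 - (b_k / C)^4) ≤ 1`, then every family of vectors of the unit
ball has a signed sum in the box `∏ [-b_k, b_k]`.

(3) Infinitely many coordinates: every finite family of vectors of the unit ball of `ℓ²` has a
signed sum whose `k`-th coordinate is at most `C (1 + log (k + 1))^(1/4)`, for all `k` at once. The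
bound does not depend on the number of vectors.
-/

set_option autoImplicit false

namespace Pool.Agent.Results.MP_c81d26_co.BoxesAndProfile

open Finset Pool.Agent.L0h27.Kom

/-- `E δ x = min ((1 + x)^(1/4)) (1 + δ (1 + log (1/δ))^(3/2) √x)` -/
noncomputable def E (δ x : ℝ) : ℝ :=
  min ((1 + x) ^ (1 / 4 : ℝ)) (1 + δ * (1 + Real.log (1 / δ)) ^ (3 / 2 : ℝ) * Real.sqrt x)

/-- The coordinates of a vector which are larger than `c`. -/
noncomputable def large {d : ℕ} (w : EuclideanSpace ℝ (Fin d)) (c : ℝ) : Finset (Fin d) :=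
  univ.filter (fun k => c < |w k|)

theorem Ef_le_E (δ x : ℝ) (h0 : 0 < δ) (h1 : δ ≤ 1) (hx : 0 ≤ x) :
    Ef (dl (1 / δ ^ 2)) x ≤ 3 * E δ x := by
  have hl : 0 ≤ Real.log (1 / δ) := Real.log_nonneg (by rw [le_div_iff₀ h0]; linarith)
  have hd : dl (1 / δ ^ 2) ≤ 3 * (δ * (1 + Real.log (1 / δ)) ^ (3 / 2 : ℝ)) := by
    unfold dl
    have e1 : Real.log (1 / δ ^ 2) = 2 * Real.log (1 / δ) := by
      rw [one_div, one_div, Real.log_inv, Real.log_inv, Real.log_pow]; push_cast; ring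
    have e2 : Real.sqrt (1 / δ ^ 2) = 1 / δ := by
      rw [Real.sqrt_div (by norm_num), Real.sqrt_one, Real.sqrt_sq h0.le]
    rw [e1, e2]
    have h2 : (1 + 2 * Real.log (1 / δ)) ^ (3 / 2 : ℝ) ≤
        3 * (1 + Real.log (1 / δ)) ^ (3 / 2 : ℝ) := by
      calc (1 + 2 * Real.log (1 / δ)) ^ (3 / 2 : ℝ) ≤ (2 * (1 + Real.log (1 / δ))) ^ (3 / 2 : ℝ) :=
            Real.rpow_le_rpow (by linarith) (by linarith) (by norm_num)
        _ = 2 ^ (3 / 2 : ℝ) * (1 + Real.log (1 / δ)) ^ (3 / 2 : ℝ) :=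
            Real.mul_rpow (by norm_num) (by linarith)
        _ ≤ 3 * (1 + Real.log (1 / δ)) ^ (3 / 2 : ℝ) := by
            apply mul_le_mul_of_nonneg_right _ (by positivity)
            have h3 : (2:ℝ) ^ (3 / 2 : ℝ) = 2 * Real.sqrt 2 := by
              rw [show (3 / 2 : ℝ) = 1 + 1 / 2 by norm_num, Real.rpow_add (by norm_num),
                Real.rpow_one, ← Real.sqrt_eq_rpow]
            have h4 : Real.sqrt 2 ≤ 3 / 2 := by
              rw [Real.sqrt_le_left (by norm_num)]; norm_num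
            linarith
    rw [div_div_eq_mul_div, div_one]
    calc _ ≤ 3 * (1 + Real.log (1 / δ)) ^ (3 / 2 : ℝ) * δ := mul_le_mul_of_nonneg_right h2 h0.le
      _ = _ := by ring
  unfold Ef E
  rw [mul_min_of_nonneg _ _ (by norm_num)]
  apply min_le_min
  · have : 0 ≤ (1 + x) ^ (1 / 4 : ℝ) := by positivity
    linarith
  · have h5 := mul_le_mul_of_nonneg_right hd (Real.sqrt_nonneg x)
    linarith

theorem part1 (d n : ℕ) (v : Fin n → EuclideanSpace ℝ (Fin d)) (δ : ℝ) (h0 : 0 < δ)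
    (h1 : δ ≤ 1) (hv : ∀ j, ‖v j‖ ≤ 1) (hvδ : ∀ j k, |v j k| ≤ δ) (X : Fin d → ℝ)
    (hX0 : ∀ k, 0 ≤ X k) (hX : ∑ k, Real.exp (-X k) ≤ 1) (x₀ : Fin n → ℝ)
    (hx₀ : ∀ j, |x₀ j| ≤ 1) :
    ∃ x : Fin n → ℝ, (∀ j, x j = 1 ∨ x j = -1) ∧
      (∀ k, |(∑ j, (x j - x₀ j) • v j) k| ≤
        15000000000 * E δ (min (X k) (Real.log (min d n : ℕ)))) ∧
      ∀ Y, 0 ≤ Y → ((large (∑ j, (x j - x₀ j) • v j) (15000000000 * E δ Y)).card : ℝ) ≤
        (min d n : ℕ) * Real.exp (-Y) := by
  set t : ℝ := 1 / δ ^ 2 with ht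
  have ht1 : 1 ≤ t := by
    rw [ht, le_div_iff₀ (by positivity)]; nlinarith
  set a : Fin d → Fin n → ℝ := fun k j => v j k / δ with ha
  have a1 : ∀ k j, |a k j| ≤ 1 := by
    intro k j
    simp only [ha]
    rw [abs_div, abs_of_pos h0, div_le_one h0]
    exact hvδ j k
  have hcol : ∀ j, ∑ k, a k j ^ 2 ≤ t := by
    intro j
    have h2 : ‖v j‖ ^ 2 ≤ 1 := by
      have := norm_nonneg (v j)
      have := hv j
      nlinarith
    rw [EuclideanSpace.norm_sq_eq] at h2
    have e : ∑ k, a k j ^ 2 = (∑ k, ‖v j k‖ ^ 2) / δ ^ 2 := by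
      rw [Finset.sum_div]
      refine Finset.sum_congr rfl fun k _ => ?_
      simp only [ha]
      rw [Real.norm_eq_abs, sq_abs, div_pow]
    rw [e, ht]
    exact div_le_div_of_nonneg_right h2 (by positivity)
  obtain ⟨x, hx1, hx2, hx3⟩ := main a t ht1 a1 hcol X hX0 hX x₀ hx₀ (min d n) (by simp)
  have e2 : Real.sqrt t = 1 / δ := by
    rw [ht, Real.sqrt_div (by norm_num), Real.sqrt_one, Real.sqrt_sq h0.le]
  have hsum : ∀ k, |(∑ j, (x j - x₀ j) • v j) k| = δ * |∑ j, a k j * (x j - x₀ j)| := by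
    intro k
    have e3 : δ * |∑ j, a k j * (x j - x₀ j)| = |δ * ∑ j, a k j * (x j - x₀ j)| := by
      rw [abs_mul, abs_of_pos h0]
    rw [e3, Finset.mul_sum]
    congr 1
    simp only [WithLp.ofLp_sum, WithLp.ofLp_smul, Finset.sum_apply, Pi.smul_apply, smul_eq_mul, ha]
    refine Finset.sum_congr rfl fun j _ => ?_
    field_simp
  have hE : ∀ Y : ℝ, 0 ≤ Y → 0 ≤ E δ Y := by
    intro Y hY
    have hl : 0 ≤ Real.log (1 / δ) := Real.log_nonneg (by rw [le_div_iff₀ h0]; linarith)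
    unfold E
    apply le_min <;> positivity
  refine ⟨x, fun j => ?_, fun k => ?_, fun Y hY => ?_⟩
  · rcases eq_or_eq_neg_of_abs_eq (hx1 j) with h | h
    · exact Or.inl h
    · exact Or.inr h
  · rw [hsum k]
    have h2 := hx2 k
    have hz : 0 ≤ min (X k) (Real.log (min d n : ℕ)) :=
      le_min (hX0 k) (Real.log_natCast_nonneg _)
    have h3 := Ef_le_E δ _ h0 h1 hz
    have h4 := hE _ hz
    rw [e2] at h2
    calc _ ≤ δ * (2000000 * (1 / δ) * Ef (dl t) (min (X k) (Real.log (min d n : ℕ)))) :=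
          mul_le_mul_of_nonneg_left h2 h0.le
      _ = 2000000 * Ef (dl t) (min (X k) (Real.log (min d n : ℕ))) := by field_simp
      _ ≤ _ := by linarith
  · refine le_trans ?_ (hx3 Y hY)
    have hsub : large (∑ j, (x j - x₀ j) • v j) (15000000000 * E δ Y) ⊆
        Finset.univ.filter (fun i => 5000000000 * Real.sqrt t * Ef (dl t) Y <
          |∑ j, a i j * (x j - x₀ j)|) := by
      intro k hk
      unfold large at hk
      rw [Finset.mem_filter] at hk ⊢
      refine ⟨hk.1, ?_⟩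
      have h2 := hk.2
      rw [hsum k] at h2
      have h3 := Ef_le_E δ Y h0 h1 hY
      rw [e2]
      have h5 : 5000000000 * Ef (dl t) Y < δ * |∑ j, a k j * (x j - x₀ j)| := by linarith
      calc 5000000000 * (1 / δ) * Ef (dl t) Y = (5000000000 * Ef (dl t) Y) / δ := by ring
        _ < _ := by rw [div_lt_iff₀ h0]; linarith
    exact_mod_cast Finset.card_le_card hsub

theorem part1' (d n : ℕ) (v : Fin n → EuclideanSpace ℝ (Fin d)) (hv : ∀ j, ‖v j‖ ≤ 1)
    (X : Fin d → ℝ) (hX0 : ∀ k, 0 ≤ X k) (hX : ∑ k, Real.exp (-X k) ≤ 1) :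
    ∃ x : Fin n → ℝ, (∀ j, x j = 1 ∨ x j = -1) ∧
      ∀ k, |(∑ j, x j • v j) k| ≤ 15000000000 * (1 + X k) ^ (1 / 4 : ℝ) := by
  obtain ⟨x, h1, h2, -⟩ := part1 d n v 1 one_pos le_rfl hv
    (fun j k => ((Real.norm_eq_abs _).symm.le.trans (PiLp.norm_apply_le (v j) k)).trans (hv j))
    X hX0 hX (fun _ => 0) (fun _ => by simp)
  refine ⟨x, h1, fun k => ?_⟩
  have h3 := h2 k
  simp only [sub_zero] at h3
  refine h3.trans (mul_le_mul_of_nonneg_left ?_ (by norm_num))
  unfold E
  refine (min_le_left _ _).trans ?_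
  have hz : 0 ≤ min (X k) (Real.log (min d n : ℕ)) := le_min (hX0 k) (Real.log_natCast_nonneg _)
  exact Real.rpow_le_rpow (by linarith) (by linarith [min_le_left (X k) (Real.log (min d n : ℕ))])
    (by norm_num)

theorem result : ∃ C : ℝ, 0 < C ∧
    (∀ (d n : ℕ) (v : Fin n → EuclideanSpace ℝ (Fin d)) (δ : ℝ), 0 < δ → δ ≤ 1 →
      (∀ j, ‖v j‖ ≤ 1) → (∀ j k, |v j k| ≤ δ) →
      ∀ X : Fin d → ℝ, (∀ k, 0 ≤ X k) → ∑ k, Real.exp (-X k) ≤ 1 →
      ∀ x₀ : Fin n → ℝ, (∀ j, |x₀ j| ≤ 1) →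
      ∃ x : Fin n → ℝ, (∀ j, x j = 1 ∨ x j = -1) ∧
        (∀ k, |(∑ j, (x j - x₀ j) • v j) k| ≤ C * E δ (min (X k) (Real.log (min d n : ℕ)))) ∧
        ∀ Y, 0 ≤ Y → ((large (∑ j, (x j - x₀ j) • v j) (C * E δ Y)).card : ℝ) ≤
          (min d n : ℕ) * Real.exp (-Y)) ∧
    (∀ (d n : ℕ) (v : Fin n → EuclideanSpace ℝ (Fin d)) (b : Fin d → ℝ),
      (∀ j, ‖v j‖ ≤ 1) → (∀ k, C ≤ b k) → ∑ k, Real.exp (1 - (b k / C) ^ 4) ≤ 1 →
      ∃ x : Fin n → ℝ, (∀ j, x j = 1 ∨ x j = -1) ∧ ∀ k, |(∑ j, x j • v j) k| ≤ b k) ∧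
    (∀ (n : ℕ) (v : Fin n → lp (fun _ : ℕ => ℝ) 2), (∀ j, ‖v j‖ ≤ 1) →
      ∃ x : Fin n → ℝ, (∀ j, x j = 1 ∨ x j = -1) ∧
        ∀ k : ℕ, |∑ j, x j * v j k| ≤ C * (1 + Real.log (k + 1)) ^ (1 / 4 : ℝ)) := by
  classical
  refine ⟨30000000000, by norm_num, ?_, ?_, ?_⟩
  · intro d n v δ h0 h1 hv hvδ X hX0 hX x₀ hx₀
    obtain ⟨x, hx1, hx2, hx3⟩ := part1 d n v δ h0 h1 hv hvδ X hX0 hX x₀ hx₀
    have hE : ∀ Y : ℝ, 0 ≤ Y → 0 ≤ E δ Y := by
      intro Y hY
      have hl : 0 ≤ Real.log (1 / δ) := Real.log_nonneg (by rw [le_div_iff₀ h0]; linarith)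
      unfold E
      apply le_min <;> positivity
    refine ⟨x, hx1, fun k => (hx2 k).trans ?_, fun Y hY => le_trans ?_ (hx3 Y hY)⟩
    · have := hE _ (le_min (hX0 k) (Real.log_natCast_nonneg (min d n)))
      linarith
    · have h2 : large (∑ j, (x j - x₀ j) • v j) (30000000000 * E δ Y) ⊆
          large (∑ j, (x j - x₀ j) • v j) (15000000000 * E δ Y) := by
        intro k hk
        unfold large at hk ⊢
        rw [Finset.mem_filter] at hk ⊢
        have := hE Y hY
        exact ⟨hk.1, lt_of_le_of_lt (by linarith) hk.2⟩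
      exact_mod_cast Finset.card_le_card h2
  · intro d n v b hv hb hsum
    have hq : ∀ k, 1 ≤ b k / 30000000000 := fun k => by
      rw [le_div_iff₀ (by norm_num)]; linarith [hb k]
    obtain ⟨x, hx1, hx2⟩ := part1' d n v hv (fun k => (b k / 30000000000) ^ 4 - 1)
      (fun k => by have := one_le_pow₀ (hq k) (n := 4); linarith)
      (le_trans (le_of_eq (Finset.sum_congr rfl fun k _ => by congr 1; ring)) hsum)
    refine ⟨x, hx1, fun k => (hx2 k).trans ?_⟩
    have h1 : 0 ≤ b k / 30000000000 := by linarith [hq k]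
    have e : (1 + ((b k / 30000000000) ^ 4 - 1)) ^ (1 / 4 : ℝ) = b k / 30000000000 := by
      rw [add_sub_cancel, ← Real.rpow_natCast, ← Real.rpow_mul h1]; norm_num
    simp only [e]
    linarith [hb k]
  · intro n v hv
    -- good signs for the first `d` coordinates
    have hfin : ∀ d : ℕ, ∃ x : Fin n → ℝ, (∀ j, x j = 1 ∨ x j = -1) ∧
        ∀ k < d, |∑ j, x j * v j k| ≤ 30000000000 * (1 + Real.log (k + 1)) ^ (1 / 4 : ℝ) := by
      intro d
      obtain ⟨x, hx1, hx2⟩ := part1' d n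
        (fun j => WithLp.toLp 2 (fun k : Fin d => v j k)) (fun j => by
          have h1 : ‖WithLp.toLp 2 (fun k : Fin d => v j k)‖ ^ 2 ≤ 1 := by
            rw [EuclideanSpace.norm_sq_eq]
            have h2 := lp.sum_rpow_le_norm_rpow (p := 2) (by norm_num) (v j)
              (Finset.range d)
            have h3 : ∑ k : Fin d, ‖v j k‖ ^ 2 = ∑ k ∈ Finset.range d, ‖v j k‖ ^ 2 :=
              Fin.sum_univ_eq_sum_range (fun k => ‖v j k‖ ^ 2) d
            have h4 : ‖v j‖ ^ 2 ≤ 1 := by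
              have := norm_nonneg (v j)
              have := hv j
              nlinarith
            simp only [ENNReal.toReal_ofNat] at h2
            norm_cast at h2
            exact (le_of_eq h3).trans (h2.trans h4)
          have h2 := norm_nonneg (WithLp.toLp 2 (fun k : Fin d => v j k))
          nlinarith)
        (fun k => Real.log ((k:ℕ) + 1) + Real.log ((k:ℕ) + 2)) (fun k => by
          have h1 : 0 ≤ Real.log (((k:ℕ):ℝ) + 1) :=
            Real.log_nonneg (by have : (0:ℝ) ≤ (k:ℕ) := Nat.cast_nonneg _; linarith)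
          have h2 : 0 ≤ Real.log (((k:ℕ):ℝ) + 2) :=
            Real.log_nonneg (by have : (0:ℝ) ≤ (k:ℕ) := Nat.cast_nonneg _; linarith)
          linarith) (by
          have e : ∀ k : Fin d, Real.exp (-(Real.log (((k:ℕ):ℝ) + 1) + Real.log (((k:ℕ):ℝ) + 2))) =
              1 / (((k:ℕ):ℝ) + 1) - 1 / (((k:ℕ):ℝ) + 2) := by
            intro k
            have h1 : (0:ℝ) < ((k:ℕ):ℝ) + 1 := by positivity
            have h2 : (0:ℝ) < ((k:ℕ):ℝ) + 2 := by positivity
            rw [neg_add, Real.exp_add, Real.exp_neg, Real.exp_neg, Real.exp_log h1,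
              Real.exp_log h2]
            field_simp
            ring
          simp only [e]
          rw [Fin.sum_univ_eq_sum_range (fun k => 1 / ((k:ℝ) + 1) - 1 / ((k:ℝ) + 2)) d]
          have h3 : ∀ d : ℕ, ∑ k ∈ Finset.range d, (1 / ((k:ℝ) + 1) - 1 / ((k:ℝ) + 2)) =
              1 - 1 / ((d:ℝ) + 1) := by
            intro d
            induction d with
            | zero => simp
            | succ d ih =>
              rw [Finset.sum_range_succ, ih]
              push_cast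
              ring
          rw [h3]
          have : (0:ℝ) ≤ 1 / ((d:ℝ) + 1) := by positivity
          linarith)
      refine ⟨x, hx1, fun k hk => ?_⟩
      have h1 := hx2 ⟨k, hk⟩
      have e1 : (∑ j, x j • (WithLp.toLp 2 (fun k : Fin d => v j k) :
          EuclideanSpace ℝ (Fin d))) ⟨k, hk⟩ = ∑ j, x j * v j k := by
        simp [WithLp.ofLp_sum, Finset.sum_apply]
      rw [e1] at h1
      refine h1.trans ?_
      have hk0 : (0:ℝ) ≤ k := Nat.cast_nonneg k
      have hl : 0 ≤ Real.log ((k:ℝ) + 1) := Real.log_nonneg (by linarith)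
      have h2 : Real.log ((k:ℝ) + 2) ≤ Real.log ((k:ℝ) + 1) + 1 := by
        have h3 : Real.log ((k:ℝ) + 2) ≤ Real.log (2 * ((k:ℝ) + 1)) :=
          Real.log_le_log (by linarith) (by linarith)
        rw [Real.log_mul (by norm_num) (by linarith)] at h3
        have := Real.log_two_lt_d9
        linarith
      have h4 : (1 + (Real.log ((k:ℝ) + 1) + Real.log ((k:ℝ) + 2))) ^ (1 / 4 : ℝ) ≤
          2 * (1 + Real.log ((k:ℝ) + 1)) ^ (1 / 4 : ℝ) := by
        calc _ ≤ ((2:ℝ) ^ (4:ℕ) * (1 + Real.log ((k:ℝ) + 1))) ^ (1 / 4 : ℝ) := by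
              have h5 : 0 ≤ Real.log ((k:ℝ) + 2) := Real.log_nonneg (by linarith)
              exact Real.rpow_le_rpow (by linarith) (by linarith) (by norm_num)
          _ = _ := by
              rw [Real.mul_rpow (by norm_num) (by linarith), ← Real.rpow_natCast,
                ← Real.rpow_mul (by norm_num)]
              norm_num
      have h6 := mul_le_mul_of_nonneg_left h4 (by norm_num : (0:ℝ) ≤ 15000000000)
      calc _ ≤ 15000000000 * (2 * (1 + Real.log ((k:ℝ) + 1)) ^ (1 / 4 : ℝ)) := h6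
        _ = _ := by ring
    -- one choice of signs is good for all coordinates
    by_contra hcon
    push Not at hcon
    let sx : (Fin n → Bool) → Fin n → ℝ := fun s j => if s j then 1 else -1
    have hsx : ∀ s j, sx s j = 1 ∨ sx s j = -1 := by
      intro s j
      simp only [sx]
      split_ifs <;> simp
    choose f hf using fun s => hcon (sx s) (hsx s)
    obtain ⟨x, hx1, hx2⟩ := hfin (Finset.univ.sup f + 1)
    have hx : sx (fun j => decide (x j = 1)) = x := by
      funext j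
      simp only [sx]
      rcases hx1 j with h | h
      · simp [h]
      · have h9 : ¬ (x j = 1) := by rw [h]; norm_num
        rw [if_neg (by simpa using h9), h]
    have h1 := hf (fun j => decide (x j = 1))
    rw [hx] at h1
    have h2 := hx2 (f (fun j => decide (x j = 1)))
      (Nat.lt_succ_of_le (Finset.le_sup (Finset.mem_univ _)))
    exact absurd h2 (not_le.mpr h1)

end Pool.Agent.Results.MP_c81d26_co.BoxesAndProfile
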