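import Pool.Agent.L0h27.LP.Final

/-!
# The Komlós problem for vectors in the unit ball of `ℓᵖ`, `1 ≤ p ≤ 2`

There is an absolute constant `C` with the following properties. For `0 < δ ≤ 1` let
`E δ x = min ((1 + x)^(1/4)) (1 + δ (1 + log (1/δ))^(3/2) √x)`. In all three parts `x⁰` is an
arbitrary point of `[-1,1]^n` (the signing problem is `x⁰ = 0`).

(1) Let `w_1, …, w_n` be in the unit ball of `ℓ¹_m` and `u_1, …, u_n` in the unit ball of `ℓ²_d`, the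
entries of the `u_j` being at most `δ`. There is **one** choice of signs `x` such that every
coordinate of `∑ (x_j - x⁰_j) w_j` is at most `C` and every coordinate of `∑ (x_j - x⁰_j) u_j` is at
most `C E δ (log (min (m + d) n))`.

(2) If `v_j = w_j + u_j` with `‖w_j‖₁ ≤ α`, `‖u_j‖₂ ≤ β` and the entries of `u_j` at most `β δ`, then
some signs have all coordinates of `∑ (x_j - x⁰_j) v_j` at most `C (α + β E δ (log (min d n)))`.

(3) If `1 ≤ p ≤ 2` and `v_1, …, v_n` are in the unit ball of `ℓᵖ_d`, then some signs have all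
coordinates of `∑ (x_j - x⁰_j) v_j` at most `C (1 + log (min d n))^(1/2 - 1/(2p))`.
-/

set_option autoImplicit false

namespace Pool.Agent.Results.MP_c81d26_co.LpVectors

open Finset Pool.Agent.L0h27.Kom Pool.Agent.L0h27.LP

/-- `E δ x = min ((1 + x)^(1/4)) (1 + δ (1 + log (1/δ))^(3/2) √x)` -/
noncomputable def E (δ x : ℝ) : ℝ :=
  min ((1 + x) ^ (1 / 4 : ℝ)) (1 + δ * (1 + Real.log (1 / δ)) ^ (3 / 2 : ℝ) * Real.sqrt x)

theorem E_nonneg {δ x : ℝ} (h0 : 0 < δ) (h1 : δ ≤ 1) (hx : 0 ≤ x) : 0 ≤ E δ x := by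
  have hl : 0 ≤ Real.log (1 / δ) := Real.log_nonneg (by rw [le_div_iff₀ h0]; linarith)
  unfold E
  apply le_min <;> positivity

theorem Ef_le_E (δ x : ℝ) (h0 : 0 < δ) (h1 : δ ≤ 1) (hx : 0 ≤ x) :
    Ef (dl (1 / δ ^ 2)) x ≤ 3 * E δ x := by
  have hl : 0 ≤ Real.log (1 / δ) := Real.log_nonneg (by rw [le_div_iff₀ h0]; linarith)
  have hd : dl (1 / δ ^ 2) ≤ 3 * (δ * (1 + Real.log (1 / δ)) ^ (3 / 2 : ℝ)) := by
    unfold dl
    have e1 : Real.log (1 / δ ^ 2) = 2 * Real.log (1 / δ) := by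
      rw [one_div, one_div, Real.log_inv, Real.log_inv, Real.log_pow]; push_cast; ring
    have e2 : Real.sqrt (1 / δ ^ 2) = 1 / δ := by
      rw [Real.sqrt_div (by norm_num), Real.sqrt_one, Real.sqrt_sq h0.le]
    rw [e1, e2]
    have h2 : (1 + 2 * Real.log (1 / δ)) ^ (3 / 2 : ℝ) ≤
        3 * (1 + Real.log (1 / δ)) ^ (3 / 2 : ℝ) := by
      calc (1 + 2 * Real.log (1 / δ)) ^ (3 / 2 : ℝ) ≤ (2 * (1 + Real.log (1 / δ))) ^ (3 / 2 : ℝ) :=
            Real.rpow_le_rpow (by linarith) (by linarith) (by norm_num)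
        _ = 2 ^ (3 / 2 : ℝ) * (1 + Real.log (1 / δ)) ^ (3 / 2 : ℝ) :=
            Real.mul_rpow (by norm_num) (by linarith)
        _ ≤ 3 * (1 + Real.log (1 / δ)) ^ (3 / 2 : ℝ) := by
            apply mul_le_mul_of_nonneg_right _ (by positivity)
            have h3 : (2:ℝ) ^ (3 / 2 : ℝ) = 2 * Real.sqrt 2 := by
              rw [show (3 / 2 : ℝ) = 1 + 1 / 2 by norm_num, Real.rpow_add (by norm_num),
                Real.rpow_one, ← Real.sqrt_eq_rpow]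
            have h4 : Real.sqrt 2 ≤ 3 / 2 := by
              rw [Real.sqrt_le_left (by norm_num)]; norm_num
            linarith
    rw [div_div_eq_mul_div, div_one]
    calc _ ≤ 3 * (1 + Real.log (1 / δ)) ^ (3 / 2 : ℝ) * δ := mul_le_mul_of_nonneg_right h2 h0.le
      _ = _ := by ring
  unfold Ef E
  rw [mul_min_of_nonneg _ _ (by norm_num)]
  apply min_le_min
  · have : 0 ≤ (1 + x) ^ (1 / 4 : ℝ) := by positivity
    linarith
  · have h5 := mul_le_mul_of_nonneg_right hd (Real.sqrt_nonneg x)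
    linarith

theorem sq_le_of_norm {d : ℕ} (v : EuclideanSpace ℝ (Fin d)) {β : ℝ} (hv : ‖v‖ ≤ β) :
    ∑ k, v k ^ 2 ≤ β ^ 2 := by
  have h2 : ‖v‖ ^ 2 ≤ β ^ 2 := pow_le_pow_left₀ (norm_nonneg _) hv 2
  rw [EuclideanSpace.norm_sq_eq] at h2
  refine le_trans (le_of_eq ?_) h2
  exact Finset.sum_congr rfl fun k _ => by rw [Real.norm_eq_abs, sq_abs]

theorem signs {n : ℕ} {x : Fin n → ℝ} (h : ∀ j, |x j| = 1) (j : Fin n) : x j = 1 ∨ x j = -1 :=
  eq_or_eq_neg_of_abs_eq (h j)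

theorem result : ∃ C : ℝ, 0 < C ∧
    (∀ (m d n : ℕ) (w : Fin n → Fin m → ℝ) (u : Fin n → EuclideanSpace ℝ (Fin d)) (δ : ℝ),
      0 < δ → δ ≤ 1 → (∀ j, ∑ i, |w j i| ≤ 1) → (∀ j, ‖u j‖ ≤ 1) → (∀ j k, |u j k| ≤ δ) →
      ∀ x₀ : Fin n → ℝ, (∀ j, |x₀ j| ≤ 1) →
      ∃ x : Fin n → ℝ, (∀ j, x j = 1 ∨ x j = -1) ∧
        (∀ i, |∑ j, (x j - x₀ j) * w j i| ≤ C) ∧
        (∀ k, |∑ j, (x j - x₀ j) * u j k| ≤ C * E δ (Real.log (min (m + d) n : ℕ)))) ∧
    (∀ (d n : ℕ) (w u : Fin n → EuclideanSpace ℝ (Fin d)) (α β δ : ℝ), 0 ≤ α → 0 ≤ β →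
      0 < δ → δ ≤ 1 → (∀ j, ∑ k, |w j k| ≤ α) → (∀ j, ‖u j‖ ≤ β) → (∀ j k, |u j k| ≤ β * δ) →
      ∀ x₀ : Fin n → ℝ, (∀ j, |x₀ j| ≤ 1) →
      ∃ x : Fin n → ℝ, (∀ j, x j = 1 ∨ x j = -1) ∧
        ∀ k, |∑ j, (x j - x₀ j) * (w j k + u j k)| ≤
          C * (α + β * E δ (Real.log (min d n : ℕ)))) ∧
    (∀ (d n : ℕ) (p : ℝ), 1 ≤ p → p ≤ 2 → ∀ v : Fin n → Fin d → ℝ,
      (∀ j, ∑ k, |v j k| ^ p ≤ 1) → ∀ x₀ : Fin n → ℝ, (∀ j, |x₀ j| ≤ 1) →
      ∃ x : Fin n → ℝ, (∀ j, x j = 1 ∨ x j = -1) ∧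
        ∀ k, |∑ j, (x j - x₀ j) * v j k| ≤
          C * (1 + Real.log (min d n : ℕ)) ^ (1 / 2 - 1 / (2 * p))) := by
  refine ⟨370800, by norm_num, ?_, ?_, ?_⟩
  · intro m d n w u δ h0 h1 hw hu huδ x₀ hx₀
    obtain ⟨x, k1, k2, k3⟩ := simul' (fun (i : Fin m) j => w j i) (fun (k : Fin d) j => u j k) δ
      h0 h1 hw (fun k j => huδ j k) (fun j => by simpa using sq_le_of_norm (u j) (hu j)) x₀ hx₀
    refine ⟨x, signs k1, fun i => ?_, fun k => ?_⟩
    · have h2 := k2 i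
      have e : ∑ j, (x j - x₀ j) * w j i = ∑ j, w j i * (x j - x₀ j) :=
        Finset.sum_congr rfl fun j _ => mul_comm _ _
      rw [e]
      linarith
    · have h2 := k3 k
      have e : ∑ j, (x j - x₀ j) * u j k = ∑ j, u j k * (x j - x₀ j) :=
        Finset.sum_congr rfl fun j _ => mul_comm _ _
      rw [e]
      have h3 := Ef_le_E δ (Real.log (min (m + d) n : ℕ)) h0 h1 (Real.log_natCast_nonneg _)
      simp only [Fintype.card_fin] at h2
      linarith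
  · intro d n w u α β δ hα hβ h0 h1 hw hu huδ x₀ hx₀
    obtain ⟨x, k1, k2⟩ := sums (fun (k : Fin d) j => w j k) (fun (k : Fin d) j => u j k) α β δ
      hα hβ h0 h1 hw (fun k j => huδ j k) (fun j => sq_le_of_norm (u j) (hu j)) x₀ hx₀
    refine ⟨x, signs k1, fun k => ?_⟩
    have h2 := k2 k
    have e : ∑ j, (x j - x₀ j) * (w j k + u j k) = ∑ j, (w j k + u j k) * (x j - x₀ j) :=
      Finset.sum_congr rfl fun j _ => mul_comm _ _
    rw [e]
    have h3 := Ef_le_E δ (Real.log (min d n : ℕ)) h0 h1 (Real.log_natCast_nonneg _)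
    have h4 := mul_le_mul_of_nonneg_left h3 hβ
    simp only [Fintype.card_fin] at h2
    linarith
  · intro d n p hp1 hp2 v hv x₀ hx₀
    obtain ⟨x, k1, k2⟩ := lpball (fun (k : Fin d) j => v j k) p hp1 hp2 hv x₀ hx₀
    refine ⟨x, signs k1, fun k => ?_⟩
    have h2 := k2 k
    have e : ∑ j, (x j - x₀ j) * v j k = ∑ j, v j k * (x j - x₀ j) :=
      Finset.sum_congr rfl fun j _ => mul_comm _ _
    rw [e]
    simp only [Fintype.card_fin] at h2
    have h3 : 0 ≤ (1 + Real.log (min d n : ℕ)) ^ (1 / 2 - 1 / (2 * p)) := by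
      have := Real.log_natCast_nonneg (min d n)
      positivity
    linarith

end Pool.Agent.Results.MP_c81d26_co.LpVectors
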