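import Pool.Agent.L0h98.KC.Fin

/-!
# MP_c81d26_co: the Komlós bound for almost all matrices with prescribed row and column contents

Let `S` be a finite set of classes of entries, and `val s` the (arbitrary real) value of the entries
of class `s`. Prescribe for every row `i` and every class `s` the number `r i s` of the entries of
class `s` in the row `i`, and for every column `v` the number `c v s` of the entries of class `s` in
the column `v`, such that the columns have Euclidean norm at most `1`:
`∑ s, c v s * val s ^ 2 ≤ 1`. Let `N` be the number of the nonzero entries. Rows and columns have at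
most `Δ` entries, and every class has at least `δ N` entries, `δ > 0`.

**Theorem.** If `N ≥ N₀(S, Δ, δ)`, all matrices with these contents but a proportion at most
`N^(-1/4)` have a signing of value at most `304`. (If the numbers of the entries of each class in the
rows and in the columns agree, there are such matrices.)

The constant does not depend on anything, and `N₀` does not depend on the values `val s`, on the
numbers of rows and columns, or on the contents. For one class of value `1/√t` this is the
Beck-Fiala bound `O(√t)` for almost all 0/1 matrices with prescribed row sums and prescribed column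
sums at most `t`; for a class for each entry of a fixed matrix it contains the lifts of this matrix.

Proof. Configuration model: every row `i` has `r i s` slots of class `s`, every column `v` has
`c v s` slots of class `s`, and the slots of each class are matched by a random bijection. (i) Second
moment over the signings that are balanced on every type of columns (columns with the same
contents), with the tent weight of the start library (project KL) on the row sums: a pair of
signings with overlaps `ρ_t` on the types has overlap `ρ'_s = ∑_t (n_t c(t,s)/N_s) ρ_t` on the slots of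
class `s`; the row inequality `S_RAT` gives a factor `exp (1/2 ∑_s N_s val_s² ρ'_s²)`, which is at
most `exp (1/2 ∑_t n_t ρ_t²)` by the Cauchy-Schwarz inequality and the norms of the columns. The first
moment for balanced words: the rows of the same contents are paired; the words on the first rows of
the pairs with given numbers of `+` in each class are combined with the negatives of such words on
the second rows. An even number of rows and of columns of each contents, with all but boundedly
many of them, is obtained from Dickson's lemma (minimal solutions of the system of the class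
equations with given parities). (ii) Concentration on products of symmetric groups of different
orders: almost all configurations have a signing with `O(N^(3/5))` bad rows. (iii) Small sets of rows
and columns span few entries, and the bad rows are repaired (repair lemma of project KL), for simple
configurations. (iv) Switchings: a positive proportion of the configurations is simple, and every
matrix with the given contents comes from the same number of configurations.

The leaves were written by helper37 (words and configurations, row products), helper72
(concentration, sparsity, counting), helper64 (switchings), helper28 (factorization, types,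
balanced words, Jensen), helper9 (slots and pairing), helper88 (Dickson's lemma, repair); the
rest by helper98. The row inequality and the repair lemma are from the start library (N404/KL and
the files cited there).
-/

set_option autoImplicit false

namespace Pool.Agent.Results.MP_c81d26_co.PrescribedContents

/-- The array `A` of classes (`none` for a zero entry) has `r i s` entries of class `s` in the row
`i` and `c v s` entries of class `s` in the column `v`. -/
def HasContents {S R V : Type} (A : R → V → Option S) (r : R → S → ℕ) (c : V → S → ℕ) : Prop :=
  (∀ i s, {v | A i v = some s}.ncard = r i s) ∧ ∀ v s, {i | A i v = some s}.ncard = c v s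

/-- The real matrix of the array: the entry of class `s` has the value `val s`. -/
def Mat {S R V : Type} (val : S → ℝ) (A : R → V → Option S) : R → V → ℝ :=
  fun i v => match A i v with
    | none => 0
    | some s => val s

/-- The columns of the matrix `B` have a signing of value at most `C`. -/
def HasSigning {X Y : Type} [Fintype Y] (B : X → Y → ℝ) (C : ℝ) : Prop :=
  ∃ ε : Y → ℝ, (∀ v, ε v = 1 ∨ ε v = -1) ∧ ∀ r, |∑ v, ε v * B r v| ≤ C

theorem mem_arr {S R V : Type} [Fintype S] [Fintype R] [Fintype V] (A : R → V → Option S)
    (r : R → S → ℕ) (c : V → S → ℕ) :
    A ∈ L0h98.KC.Arr r c ↔ HasContents A r c := by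
  classical
  unfold L0h98.KC.Arr HasContents
  rw [L0h98.KC.mfi]
  have h1 : ∀ i s, (Finset.univ.filter fun v => A i v = some s).card =
      {v | A i v = some s}.ncard := by
    intro i s
    rw [← Set.ncard_coe_finset]
    congr 1
    ext v
    simp
  have h2 : ∀ v s, (Finset.univ.filter fun i => A i v = some s).card =
      {i | A i v = some s}.ncard := by
    intro v s
    rw [← Set.ncard_coe_finset]
    congr 1
    ext i
    simp
  constructor
  · rintro ⟨-, h3, h4⟩
    refine ⟨fun i s => ?_, fun v s => ?_⟩
    · rw [← h1, ← h3 i s]
    · rw [← h2, ← h4 v s]
  · rintro ⟨h3, h4⟩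
    refine ⟨Finset.mem_univ _, fun i s => ?_, fun v s => ?_⟩
    · rw [← h3 i s, ← h1]
    · rw [← h4 v s, ← h2]

theorem mat_eq {S R V : Type} [Fintype V] (val : S → ℝ) (A : R → V → Option S) (ε : V → ℝ)
    (i : R) : ∑ v, ε v * Mat val A i v = L0h98.KC.aval val A ε i := by
  unfold L0h98.KC.aval Mat
  refine Finset.sum_congr rfl fun v _ => ?_
  cases A i v <;> simp [mul_comm]

theorem col_eq {S R V : Type} [Fintype S] [Fintype R] [Fintype V] (val : S → ℝ)
    (A : R → V → Option S) (r : R → S → ℕ) (c : V → S → ℕ) (h : HasContents A r c) (v : V) :
    ∑ i, Mat val A i v ^ 2 = ∑ s, (c v s : ℝ) * val s ^ 2 := by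
  classical
  have h1 : ∀ i, Mat val A i v ^ 2 = ∑ s, if A i v = some s then val s ^ 2 else 0 := by
    intro i
    unfold Mat
    rcases hA : A i v with _ | s
    · simp
    · simp
  rw [Finset.sum_congr rfl fun i _ => h1 i, Finset.sum_comm]
  refine Finset.sum_congr rfl fun s _ => ?_
  rw [← Finset.sum_filter, Finset.sum_const, nsmul_eq_mul]
  congr 1
  rw [← h.2 v s, ← Set.ncard_coe_finset]
  congr 2
  ext i
  simp

/-- **The Komlós bound for almost all matrices with prescribed row and column contents.** -/
theorem result (S : Type) [Fintype S] (Δ : ℕ) (δ : ℝ) (hδ : 0 < δ) :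
    ∃ N₀ : ℕ, ∀ (R V : Type) [Fintype R] [Fintype V] (val : S → ℝ) (r : R → S → ℕ)
      (c : V → S → ℕ),
      (∀ i, ∑ s, r i s ≤ Δ) → (∀ v, ∑ s, c v s ≤ Δ) →
      (∀ v, ∑ s, (c v s : ℝ) * val s ^ 2 ≤ 1) →
      (∀ s, δ * ((∑ t, ∑ i, r i t : ℕ) : ℝ) ≤ ((∑ i, r i s : ℕ) : ℝ)) →
      N₀ ≤ ∑ s, ∑ i, r i s →
      (∀ A : R → V → Option S, HasContents A r c → ∀ v, ∑ i, Mat val A i v ^ 2 ≤ 1) ∧
      ((∀ s, ∑ i, r i s = ∑ v, c v s) → ∃ A : R → V → Option S, HasContents A r c) ∧
      ((∑ s, ∑ i, r i s : ℕ) : ℝ) ^ (1 / 4 : ℝ) *
          ({A : R → V → Option S | HasContents A r c ∧ ¬ HasSigning (Mat val A) 304}.ncard : ℝ) ≤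
        ({A : R → V → Option S | HasContents A r c}.ncard : ℝ) := by
  classical
  obtain ⟨N₁, h₁⟩ := L0h98.KC.mainc S Δ δ hδ
  obtain ⟨N₂, h₂⟩ := L0h98.KC.exists_arr S Δ δ hδ
  refine ⟨max N₁ N₂, fun R V _ _ val r c hr hc hcol hcls hN => ⟨?_, ?_, ?_⟩⟩
  · intro A hA v
    rw [col_eq val A r c hA v]
    exact hcol v
  · intro hrc
    obtain ⟨A, hA⟩ := h₂ R V r c hr hc hrc hcls ((le_max_right _ _).trans hN)
    exact ⟨A, (mem_arr A r c).1 hA⟩
  · have h := h₁ R V val r c hr hc hcol hcls ((le_max_left _ _).trans hN)
    have e1 : {A : R → V → Option S | HasContents A r c}.ncard = (L0h98.KC.Arr r c).card := by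
      rw [← Set.ncard_coe_finset]
      congr 1
      ext A
      rw [Set.mem_ofPred_eq, Finset.mem_coe, mem_arr]
    have e2 : {A : R → V → Option S | HasContents A r c ∧ ¬ HasSigning (Mat val A) 304}.ncard =
        ((L0h98.KC.Arr r c).filter fun A => ¬ ∃ y : V → ℝ, (∀ v, y v = 1 ∨ y v = -1) ∧
          ∀ i, |L0h98.KC.aval val A y i| ≤ 304).card := by
      rw [← Set.ncard_coe_finset]
      congr 1
      ext A
      rw [Set.mem_ofPred_eq, Finset.mem_coe, L0h98.KC.mfi, mem_arr]
      refine and_congr_right fun _ => not_congr ?_
      unfold HasSigning
      simp only [mat_eq]
    rw [e1, e2]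
    exact h

end Pool.Agent.Results.MP_c81d26_co.PrescribedContents
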