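import Pool.Agent.L0h87.Q4.Interp
import Pool.Agent.L0h87.Q4.EXD
import Pool.Agent.L0h87.Q4.TL

/-!
# Random signings with nearly quartic tails

For vectors `v_1, …, v_n` in the Euclidean unit ball of `ℝ^d` with entries of absolute value at
most `δ`, and every `Λ ≥ 1`, there is a probability distribution on the signings such that every
coordinate of the signed sum exceeds `C * tailBound δ Λ Y` with probability at most `exp (-Y)`,
for all `Y ≥ Λ` at once.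
-/

set_option autoImplicit false

namespace Pool.Agent.Results.MP_c81d26_co.QuarticTails

open Finset Real Pool.Agent.L0h87.Q4

/-- `min (Y^{1/4} (1 + log (Y/Λ))^{1/2}, (1 + log (Y/Λ)) (1 + δ (1 + log (1/δ))^{3/2} √Y))`. -/
noncomputable def tailBound (δ Λ Y : ℝ) : ℝ :=
  min (Y ^ (1 / 4 : ℝ) * (1 + Real.log (Y / Λ)) ^ (1 / 2 : ℝ))
    ((1 + Real.log (Y / Λ)) * (1 + δ * (1 + Real.log (1 / δ)) ^ (3 / 2 : ℝ) * Real.sqrt Y))

/-- `min ((1 + x)^{1/4}, 1 + δ (1 + log (1/δ))^{5/2} √x)`. -/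
noncomputable def relaxBound (δ x : ℝ) : ℝ :=
  min ((1 + x) ^ (1 / 4 : ℝ)) (1 + δ * (1 + Real.log (1 / δ)) ^ (5 / 2 : ℝ) * Real.sqrt x)

/-- `x` is a signing. -/
def IsSigning {n : ℕ} (x : Fin n → ℝ) : Prop := ∀ j, x j = 1 ∨ x j = -1

theorem result : ∃ C : ℝ, 0 < C ∧ ∀ (d n : ℕ) (v : Fin n → EuclideanSpace ℝ (Fin d)) (δ : ℝ),
    0 < δ → δ ≤ 1 → (∀ j, ‖v j‖ ≤ 1) → (∀ j k, |v j k| ≤ δ) →
    -- (1) a distribution on the signings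
    (∀ (x₀ : Fin n → ℝ), (∀ j, |x₀ j| ≤ 1) → ∀ Λ : ℝ, 1 ≤ Λ →
      ∃ (K : ℕ) (p : Fin K → ℝ) (x : Fin K → Fin n → ℝ),
        (∀ r, 0 ≤ p r) ∧ ∑ r, p r = 1 ∧ (∀ r, IsSigning (x r)) ∧
        ∀ (i : Fin d) (Y : ℝ), Λ ≤ Y →
          ∑ r, (if C * tailBound δ Λ Y < |(∑ j, (x r j - x₀ j) • v j) i| then p r else 0) ≤
            exp (-Y)) ∧
    -- (2) weights on the coordinates, one signing for all levels
    (∀ (x₀ : Fin n → ℝ), (∀ j, |x₀ j| ≤ 1) → ∀ Λ : ℝ, 1 ≤ Λ → ∀ μ : Fin d → ℝ, (∀ i, 0 ≤ μ i) →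
      ∃ x : Fin n → ℝ, IsSigning x ∧ ∀ Y : ℝ, Λ ≤ Y →
        ∑ i, (if C * tailBound δ Λ Y < |(∑ j, (x j - x₀ j) • v j) i| then μ i else 0) ≤
          exp (-Y) * ∑ i, μ i) ∧
    -- (3) `m` signings whose signed sums are small in the mean square sense, coordinatewise
    (∀ m : ℕ, 1 ≤ m → ∃ f : Fin m → Fin n → ℝ, (∀ l, IsSigning (f l)) ∧
      ∀ i : Fin d, Real.sqrt ((∑ l, ((∑ j, f l j • v j) i) ^ 2) / m) ≤
        C * relaxBound δ (Real.log (min d n : ℕ) / m)) := by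
  obtain ⟨C₂, hC₂, hT⟩ := stTL
  obtain ⟨C₃, hC₃, hI⟩ := kom_interp stEXD
  have hC0 : 0 < 30000000 * C₂ + Real.sqrt C₃ := by positivity
  refine ⟨30000000 * C₂ + Real.sqrt C₃, hC0, ?_⟩
  intro d n v δ h0 h1 hv hvδ
  have hl : 0 ≤ Real.log (1 / δ) := Real.log_nonneg (by rw [le_div_iff₀ h0]; linarith)
  have hnn : ∀ Λ Y : ℝ, 1 ≤ Λ → Λ ≤ Y → 0 ≤ tailBound δ Λ Y := by
    intro Λ Y hΛ hY
    have hY0 : 0 ≤ Y := by linarith
    have h2 : 0 ≤ Real.log (Y / Λ) := Real.log_nonneg (by rw [le_div_iff₀ (by linarith)]; linarith)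
    unfold tailBound
    apply le_min <;> positivity
  have hlev : ∀ Λ Y : ℝ, 1 ≤ Λ → Λ ≤ Y → ∃ k : ℕ, (1 / 16 : ℝ) ^ (⌈Λ⌉₊ * 2 ^ k) ≤ exp (-Y) ∧
      30000000 * bd δ ⌈Λ⌉₊ k ≤ (30000000 * C₂ + Real.sqrt C₃) * tailBound δ Λ Y := by
    intro Λ Y hΛ hY
    obtain ⟨k, hk1, hk2⟩ := hT Λ Y δ hΛ hY h0 h1
    refine ⟨k, hk1, ?_⟩
    have h3 := hnn Λ Y hΛ hY
    have h4 := Real.sqrt_nonneg C₃
    have h5 : bd δ ⌈Λ⌉₊ k ≤ C₂ * tailBound δ Λ Y := hk2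
    nlinarith [mul_nonneg h4 h3]
  refine ⟨?_, ?_, ?_⟩
  · intro x₀ hx₀ Λ hΛ
    obtain ⟨K, p, x, hp, hp1, hx, ht⟩ := kom_dist h0 h1 hv hvδ x₀ hx₀ ⌈Λ⌉₊
      (Nat.one_le_ceil_iff.mpr (by linarith))
    refine ⟨K, p, x, hp, hp1, hx, fun i Y hY => ?_⟩
    obtain ⟨k, hk1, hk2⟩ := hlev Λ Y hΛ hY
    refine le_trans (Finset.sum_le_sum fun r _ => ?_) ((ht i k).trans hk1)
    by_cases h : (30000000 * C₂ + Real.sqrt C₃) * tailBound δ Λ Y <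
        |(∑ j, (x r j - x₀ j) • v j) i|
    · rw [if_pos h, if_pos (lt_of_le_of_lt hk2 h)]
    · rw [if_neg h]
      split_ifs
      · exact hp r
      · exact le_rfl
  · intro x₀ hx₀ Λ hΛ μ hμ
    obtain ⟨x, hx, ht⟩ := kom_weights h0 h1 hv hvδ x₀ hx₀ ⌈Λ⌉₊
      (Nat.one_le_ceil_iff.mpr (by linarith)) μ hμ
    refine ⟨x, hx, fun Y hY => ?_⟩
    obtain ⟨k, hk1, hk2⟩ := hlev Λ Y hΛ hY
    refine le_trans (Finset.sum_le_sum fun i _ => ?_)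
      ((ht k).trans (mul_le_mul_of_nonneg_right hk1 (Finset.sum_nonneg fun i _ => hμ i)))
    by_cases h : (30000000 * C₂ + Real.sqrt C₃) * tailBound δ Λ Y <
        |(∑ j, (x j - x₀ j) • v j) i|
    · rw [if_pos h, if_pos (lt_of_le_of_lt hk2 h)]
    · rw [if_neg h]
      split_ifs
      · exact hμ i
      · exact le_rfl
  · intro m hm
    have hmR : (0 : ℝ) < m := by exact_mod_cast hm
    obtain ⟨f, hf1, hf2⟩ := hI d n v δ h0 h1 hv hvδ m hm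
    refine ⟨f, hf1, fun i => ?_⟩
    have hx0 : 0 ≤ Real.log (min d n : ℕ) / m := div_nonneg (Real.log_natCast_nonneg _) hmR.le
    have hS : 1 ≤ relaxBound δ (Real.log (min d n : ℕ) / m) := SS_ge δ _ h0 h1 hx0
    have h2 : (∑ l, ((∑ j, f l j • v j) i) ^ 2) / m ≤
        C₃ * relaxBound δ (Real.log (min d n : ℕ) / m) ^ 2 := by
      rw [div_le_iff₀ hmR]
      refine (hf2 i).trans (le_of_eq ?_)
      show C₃ * m * SS δ _ ^ 2 = C₃ * SS δ _ ^ 2 * m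
      ring
    calc Real.sqrt ((∑ l, ((∑ j, f l j • v j) i) ^ 2) / m)
        ≤ Real.sqrt (C₃ * relaxBound δ (Real.log (min d n : ℕ) / m) ^ 2) := Real.sqrt_le_sqrt h2
      _ = Real.sqrt C₃ * relaxBound δ (Real.log (min d n : ℕ) / m) := by
          rw [Real.sqrt_mul hC₃.le, Real.sqrt_sq (by linarith)]
      _ ≤ _ := by
          apply mul_le_mul_of_nonneg_right _ (by linarith)
          have : 0 ≤ 30000000 * C₂ := by positivity
          linarith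

end Pool.Agent.Results.MP_c81d26_co.QuarticTails
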